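import Mathlib

open Filter Topology BoundedContinuousFunction

namespace Pool.Agent.Results.MP_cd8fef_an.ProductRotation

section defs

variable (G : Type) [Group G] [TopologicalSpace G] [IsTopologicalGroup G] [CompactSpace G] [T2Space G]
variable (X : Type) [TopologicalSpace X] [CompactSpace X] [T2Space X] [MulAction G X]
  [ContinuousSMul G X]

/-- The automorphism `α_g` of `C(X)`: `(α_g f)(x) = f (g⁻¹ • x)`. With `X = G` this is left translation
on `C(G)`. -/
noncomputable def actC {G : Type} [Group G] [TopologicalSpace G] {X : Type} [TopologicalSpace X]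
    [MulAction G X] [ContinuousSMul G X] (g : G) : C(X, ℂ) →+* C(X, ℂ) where
  toFun f := ⟨fun x => f (g⁻¹ • x), by fun_prop⟩
  map_one' := rfl
  map_mul' _ _ := rfl
  map_zero' := rfl
  map_add' _ _ := rfl

/-- The ideal `c₀(ℕ, C(X))` of `ℓ^∞(ℕ, C(X))` (bounded functions on the discrete space `ℕ`). -/
def c0 (X : Type) [TopologicalSpace X] [CompactSpace X] : Ideal (ℕ →ᵇ C(X, ℂ)) where
  carrier := {a | Tendsto (fun n => a n) atTop (𝓝 0)}
  add_mem' := by
    intro a b ha hb
    have := Tendsto.add ha hb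
    simpa using this
  zero_mem' := by
    simpa using (tendsto_const_nhds : Tendsto (fun _ : ℕ => (0 : C(X, ℂ))) atTop (𝓝 0))
  smul_mem' := by
    intro c a ha
    rw [Set.mem_ofPred_eq, tendsto_zero_iff_norm_tendsto_zero] at ha ⊢
    refine squeeze_zero (fun n => norm_nonneg _) (fun n => ?_) (by simpa using ha.const_mul ‖c‖)
    calc ‖(c • a) n‖ = ‖c n * a n‖ := rfl
      _ ≤ ‖c n‖ * ‖a n‖ := norm_mul_le _ _
      _ ≤ ‖c‖ * ‖a n‖ := by
        gcongr
        exact c.norm_coe_le_norm n

lemma mem_c0 {X : Type} [TopologicalSpace X] [CompactSpace X] {a : ℕ →ᵇ C(X, ℂ)} :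
    a ∈ c0 X ↔ Tendsto (fun n => ‖a n‖) atTop (𝓝 0) := by
  rw [← tendsto_zero_iff_norm_tendsto_zero]
  rfl

/-- The sequence algebra `A_∞ = ℓ^∞(ℕ, A) / c₀(ℕ, A)` of `A = C(X)`, with the quotient norm. -/
def AInf (X : Type) [TopologicalSpace X] [CompactSpace X] : Type := (ℕ →ᵇ C(X, ℂ)) ⧸ c0 X

noncomputable instance (X : Type) [TopologicalSpace X] [CompactSpace X] :
    SeminormedCommRing (AInf X) := Ideal.Quotient.semiNormedCommRing (c0 X)

noncomputable instance (X : Type) [TopologicalSpace X] [CompactSpace X] :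
    Algebra ℂ (AInf X) := inferInstanceAs (Algebra ℂ ((ℕ →ᵇ C(X, ℂ)) ⧸ c0 X))

/-- The quotient map. -/
noncomputable def mkInf (X : Type) [TopologicalSpace X] [CompactSpace X] :
    (ℕ →ᵇ C(X, ℂ)) →+* AInf X := Ideal.Quotient.mk (c0 X)

/-- Entrywise action on bounded sequences. -/
noncomputable def actSeq {G : Type} [Group G] [TopologicalSpace G] {X : Type} [TopologicalSpace X]
    [CompactSpace X] [MulAction G X] [ContinuousSMul G X] (g : G) :
    (ℕ →ᵇ C(X, ℂ)) →+* (ℕ →ᵇ C(X, ℂ)) where
  toFun a := BoundedContinuousFunction.ofNormedAddCommGroup (fun n => actC g (a n))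
    continuous_of_discreteTopology ‖a‖ (fun n => by
      refine le_trans ?_ (a.norm_coe_le_norm n)
      rw [ContinuousMap.norm_le _ (norm_nonneg _)]
      intro x
      exact (a n).norm_coe_le_norm _)
  map_one' := rfl
  map_mul' _ _ := rfl
  map_zero' := rfl
  map_add' _ _ := rfl

lemma actSeq_c0 {G : Type} [Group G] [TopologicalSpace G] {X : Type} [TopologicalSpace X]
    [CompactSpace X] [MulAction G X] [ContinuousSMul G X] (g : G) :
    c0 X ≤ Ideal.comap (actSeq g) (c0 X) := by
  intro a ha
  rw [Ideal.mem_comap, mem_c0]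
  rw [mem_c0] at ha
  refine squeeze_zero (fun n => norm_nonneg _) (fun n => ?_) ha
  rw [ContinuousMap.norm_le _ (norm_nonneg _)]
  intro x
  exact (a n).norm_coe_le_norm _

/-- The induced action `α_∞` on `A_∞`. -/
noncomputable def actInf {G : Type} [Group G] [TopologicalSpace G] (X : Type) [TopologicalSpace X]
    [CompactSpace X] [MulAction G X] [ContinuousSMul G X] (g : G) : AInf X →+* AInf X :=
  Ideal.quotientMap (c0 X) (actSeq g) (actSeq_c0 g)

lemma star_c0 {X : Type} [TopologicalSpace X] [CompactSpace X] :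
    c0 X ≤ Ideal.comap (starRingEnd (ℕ →ᵇ C(X, ℂ))) (c0 X) := by
  intro a ha
  rw [Ideal.mem_comap, mem_c0]
  rw [mem_c0] at ha
  refine squeeze_zero (fun n => norm_nonneg _) (fun n => ?_) ha
  rw [ContinuousMap.norm_le _ (norm_nonneg _)]
  intro x
  have : ((starRingEnd (ℕ →ᵇ C(X, ℂ))) a n) x = star (a n x) := rfl
  rw [this, norm_star]
  exact (a n).norm_coe_le_norm _

/-- The involution of `A_∞`. -/
noncomputable def starInf (X : Type) [TopologicalSpace X] [CompactSpace X] : AInf X →+* AInf X :=
  Ideal.quotientMap (c0 X) (starRingEnd (ℕ →ᵇ C(X, ℂ))) star_c0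

/-- The embedding of `A = C(X)` in `A_∞` as constant sequences. -/
noncomputable def constInf (X : Type) [TopologicalSpace X] [CompactSpace X] (a : C(X, ℂ)) : AInf X :=
  mkInf X (BoundedContinuousFunction.const ℕ a)

/-- `φ : C(G) → A_{∞,α} ∩ A'` is an equivariant completely positive contractive order zero map. -/
structure IsRokhlinMap (φ : C(G, ℂ) →ₗ[ℂ] AInf X) : Prop where
  /-- `φ` is completely positive: `φ^{(k)}(B* B)` is of the form `C* C` in `M_k(A_∞)`. -/
  completelyPositive : ∀ (k : ℕ) (B : Matrix (Fin k) (Fin k) C(G, ℂ)),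
    ∃ C : Matrix (Fin k) (Fin k) (AInf X), ∀ i j,
      φ (∑ l, star (B l i) * B l j) = ∑ l, starInf X (C l i) * C l j
  /-- `φ` is contractive. -/
  contractive : ∀ f, ‖φ f‖ ≤ ‖f‖
  /-- `φ` has order zero: it sends orthogonal positive elements to orthogonal elements. -/
  orderZero : ∀ a b : C(G, ℂ), (star a * a) * (star b * b) = 0 →
    φ (star a * a) * φ (star b * b) = 0
  /-- `φ` is equivariant for left translation on `C(G)` and `α_∞` on `A_∞`. -/
  equivariant : ∀ (g : G) (f : C(G, ℂ)), φ (actC g f) = actInf X g (φ f)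
  /-- the range of `φ` lies in `A_{∞,α}`. -/
  rangeContinuous : ∀ f, Continuous (fun g : G => actInf X g (φ f))
  /-- the range of `φ` commutes with `A`. -/
  rangeCommutes : ∀ (f : C(G, ℂ)) (a : C(X, ℂ)), φ f * constInf X a = constInf X a * φ f

/-- `dim_Rok(α) ≤ d` for the action of the compact group `G` on `C(X)` induced by `G ↷ X`. -/
def RokhlinDimLE (d : ℕ) : Prop :=
  ∃ φ : Fin (d+1) → (C(G, ℂ) →ₗ[ℂ] AInf X),
    (∀ j, IsRokhlinMap G X (φ j)) ∧ ∑ j, φ j 1 = 1

/-- The compact group `∏_k μ_{n_k} ≅ ∏_k ℤ/n_k` inside `∏_k S¹`. -/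
def ProdMu (n : ℕ → ℕ) : Subgroup (ℕ → Circle) where
  carrier := {g | ∀ k, (g k)^(n k) = 1}
  mul_mem' := by
    intro a b ha hb k
    simp only [Pi.mul_apply, mul_pow, ha k, hb k, mul_one]
  one_mem' := by
    intro k
    simp
  inv_mem' := by
    intro a ha k
    simp only [Pi.inv_apply, inv_pow, ha k, inv_one]

lemma isClosed_prodMu (n : ℕ → ℕ) : IsClosed (ProdMu n : Set (ℕ → Circle)) := by
  have : (ProdMu n : Set (ℕ → Circle)) = ⋂ k, {g : ℕ → Circle | (g k)^(n k) = 1} := by
    ext g
    simp only [Set.mem_iInter]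
    rfl
  rw [this]
  refine isClosed_iInter fun k => ?_
  exact isClosed_eq (by fun_prop) continuous_const

instance (n : ℕ → ℕ) : CompactSpace (ProdMu n) :=
  isCompact_iff_compactSpace.1 (isClosed_prodMu n).isCompact

end defs

section lifts

variable {G : Type} [Group G] [TopologicalSpace G] [IsTopologicalGroup G] [CompactSpace G] [T2Space G]
variable {X : Type} [TopologicalSpace X] [CompactSpace X] [T2Space X] [MulAction G X]
  [ContinuousSMul G X]

omit [T2Space X] in
lemma mkInf_surjective : Function.Surjective (mkInf X) := Ideal.Quotient.mk_surjective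

omit [T2Space X] in
lemma mkInf_eq {a b : ℕ →ᵇ C(X, ℂ)} : mkInf X a = mkInf X b ↔ a - b ∈ c0 X := Ideal.Quotient.eq

omit [T2Space X] in
lemma starInf_mk (a : ℕ →ᵇ C(X, ℂ)) : starInf X (mkInf X a) = mkInf X (star a) := rfl

omit [T2Space X] in
lemma actInf_mk (g : G) (a : ℕ →ᵇ C(X, ℂ)) : actInf X g (mkInf X a) = mkInf X (actSeq g a) := rfl

omit [T2Space X] in
lemma starInf_starInf (a : AInf X) : starInf X (starInf X a) = a := by
  obtain ⟨a, rfl⟩ := mkInf_surjective a
  rw [starInf_mk, starInf_mk, star_star]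

lemma IsRokhlinMap.selfAdjoint {φ : C(G, ℂ) →ₗ[ℂ] AInf X} (h : IsRokhlinMap G X φ) (a : C(G, ℂ)) :
    starInf X (φ (star a * a)) = φ (star a * a) := by
  obtain ⟨C, hC⟩ := h.completelyPositive 1 (fun _ _ => a)
  have := hC 0 0
  simp only [Finset.univ_unique, Fin.default_eq_zero, Finset.sum_singleton] at this
  rw [this, map_mul, starInf_starInf, mul_comm]

/-- consequences for a sign function -/
lemma IsRokhlinMap.sign {φ : C(G, ℂ) →ₗ[ℂ] AInf X} (h : IsRokhlinMap G X φ) (χ : C(G, ℂ))
    (hstar : star χ = χ) (hsq : χ * χ = 1) :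
    φ χ * φ χ = φ 1 * φ 1 ∧ starInf X (φ χ) = φ χ := by
  set a : C(G, ℂ) := (1/2 : ℂ) • (1 + χ) with ha
  set b : C(G, ℂ) := (1/2 : ℂ) • (1 - χ) with hb
  have ha1 : star a * a = a := by
    have h1 : star a = a := by
      rw [ha, star_smul, star_add, star_one, hstar]
      simp
    rw [h1, ha, smul_mul_smul_comm]
    have : (1 + χ) * (1 + χ) = (2:ℂ) • (1 + χ) := by
      rw [two_smul]
      calc (1 + χ) * (1 + χ) = 1 + χ + χ + χ * χ := by ring
        _ = _ := by rw [hsq]; ring
    rw [this, smul_smul]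
    norm_num
  have hb1 : star b * b = b := by
    have h1 : star b = b := by
      rw [hb, star_smul, star_sub, star_one, hstar]
      simp
    rw [h1, hb, smul_mul_smul_comm]
    have : (1 - χ) * (1 - χ) = (2:ℂ) • (1 - χ) := by
      rw [two_smul]
      calc (1 - χ) * (1 - χ) = 1 - χ - χ + χ * χ := by ring
        _ = _ := by rw [hsq]; ring
    rw [this, smul_smul]
    norm_num
  have hab : a * b = 0 := by
    rw [ha, hb, smul_mul_smul_comm]
    have : (1 + χ) * (1 - χ) = 0 := by
      calc (1 + χ) * (1 - χ) = 1 - χ * χ := by ring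
        _ = 0 := by rw [hsq]; ring
    rw [this, smul_zero]
  have e1 : a + b = 1 := by
    rw [ha, hb, ← smul_add]
    have : (1 + χ) + (1 - χ) = (2:ℂ) • (1 : C(G, ℂ)) := by rw [two_smul]; ring
    rw [this, smul_smul]
    norm_num
  have e2 : a - b = χ := by
    rw [ha, hb, ← smul_sub]
    have : (1 + χ) - (1 - χ) = (2:ℂ) • χ := by rw [two_smul]; ring
    rw [this, smul_smul]
    norm_num
  have h0 := h.orderZero a b (by rw [ha1, hb1, hab])
  rw [ha1, hb1] at h0
  have sa := h.selfAdjoint a
  have sb := h.selfAdjoint b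
  rw [ha1] at sa
  rw [hb1] at sb
  constructor
  · rw [← e1, ← e2, map_add, map_sub]
    have : (φ a - φ b) * (φ a - φ b) - (φ a + φ b) * (φ a + φ b) = - (4 * (φ a * φ b)) := by ring
    rw [h0, mul_zero, neg_zero, sub_eq_zero] at this
    exact this
  · rw [← e2, map_sub, map_sub, sa, sb]

end lifts


section discrete

variable {m L : ℕ}

/-- indicator vector of a set of coordinates -/
def eS (S : Finset (Fin m)) : Fin m → ZMod L := fun i => if i ∈ S then 1 else 0

lemma eS_insert {S : Finset (Fin m)} {i : Fin m} (hi : i ∉ S) : 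
    (eS (insert i S) : Fin m → ZMod L) = eS S + Pi.single i 1 := by
  funext j
  simp only [eS, Pi.add_apply, Finset.mem_insert]
  by_cases h : j = i
  · subst h; simp [hi]
  · simp [h]

lemma eS_erase {S : Finset (Fin m)} {i : Fin m} (hi : i ∈ S) : 
    (eS (S.erase i) : Fin m → ZMod L) + Pi.single i 1 = eS S := by
  rw [← eS_insert (Finset.notMem_erase i S), Finset.insert_erase hi]

/-- mod 2 cup product type cochains -/
def om (y : ℕ → (Fin m → ZMod L) → Fin m → ZMod 2) : ℕ → (Fin m → ZMod L) → Finset (Fin m) → ZMod 2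
  | 0, _, _ => 1
  | k+1, v, S => ∑ i ∈ S, om y k v (S.erase i) * y k (v + eS (S.erase i)) i

lemma sum_sym_zero (S : Finset (Fin m)) (f : Fin m → Fin m → ZMod 2) (hf : ∀ i ∈ S, ∀ j ∈ S, i ≠ j → f i j = f j i) :
    ∑ i ∈ S, ∑ j ∈ S.erase i, f i j = 0 := by
  have h : ∑ i ∈ S, ∑ j ∈ S.erase i, f i j = ∑ p ∈ S.offDiag, f p.1 p.2 := by
    rw [Finset.sum_sigma']
    refine Finset.sum_nbij' (fun p => (p.1, p.2)) (fun p => ⟨p.1, p.2⟩) ?_ ?_ ?_ ?_ ?_
    · rintro ⟨i, j⟩ h
      simp only [Finset.mem_sigma, Finset.mem_erase] at h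
      simp only [Finset.mem_offDiag]
      exact ⟨h.1, h.2.2, fun e => h.2.1 e.symm⟩
    · rintro ⟨i, j⟩ h
      simp only [Finset.mem_offDiag] at h
      simp only [Finset.mem_sigma, Finset.mem_erase]
      exact ⟨h.1, fun e => h.2.2 e.symm, h.2.1⟩
    · rintro ⟨i, j⟩ _; rfl
    · rintro ⟨i, j⟩ _; rfl
    · rintro ⟨i, j⟩ _; rfl
  rw [h]
  refine Finset.sum_involution (fun p _ => Prod.swap p) ?_ ?_ ?_ ?_
  · rintro ⟨i, j⟩ hp
    rw [Finset.mem_offDiag] at hp
    simp only [Prod.fst_swap, Prod.snd_swap]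
    rw [hf i hp.1 j hp.2.1 hp.2.2]
    exact CharTwo.add_self_eq_zero _
  · rintro ⟨i, j⟩ hp _
    rw [Finset.mem_offDiag] at hp
    intro h
    simp only [Prod.swap_prod_mk, Prod.mk.injEq] at h
    exact hp.2.2 h.2
  · rintro ⟨i, j⟩ hp
    rw [Finset.mem_offDiag] at hp ⊢
    exact ⟨hp.2.1, hp.1, fun e => hp.2.2 e.symm⟩
  · rintro ⟨i, j⟩ _; rfl

/-- the product cochains are closed -/
lemma om_closed (y : ℕ → (Fin m → ZMod L) → Fin m → ZMod 2) 
    (hy : ∀ k v i l, i ≠ l → y k v i + y k (v + Pi.single i 1) l + y k v l + y k (v + Pi.single l 1) i = 0)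
    (k : ℕ) : ∀ (v : Fin m → ZMod L) (S : Finset (Fin m)), 
      ∑ l ∈ S, (om y k (v + Pi.single l 1) (S.erase l) + om y k v (S.erase l)) = 0 := by
  induction k with
  | zero =>
    intro v S
    refine Finset.sum_eq_zero fun l _ => ?_
    simp only [om]
    exact CharTwo.add_self_eq_zero _
  | succ k ih =>
    intro v S
    have step1 : ∑ l ∈ S, om y (k+1) (v + Pi.single l 1) (S.erase l) = 
        ∑ l ∈ S, ∑ i ∈ S.erase l, om y k v ((S.erase l).erase i) * y k (v + eS (S.erase i)) i := by
      calc ∑ l ∈ S, om y (k+1) (v + Pi.single l 1) (S.erase l) 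
          = ∑ l ∈ S, ∑ i ∈ S.erase l, om y k (v + Pi.single l 1) ((S.erase i).erase l) * y k (v + eS (S.erase i)) i := by
            refine Finset.sum_congr rfl fun l hl => ?_
            rw [om]
            refine Finset.sum_congr rfl fun i hi => ?_
            rw [Finset.mem_erase] at hi
            have e1 : (S.erase l).erase i = (S.erase i).erase l := Finset.erase_right_comm
            have e2 : v + Pi.single l 1 + eS ((S.erase l).erase i) = v + eS (S.erase i) := by
              rw [e1, add_assoc, add_comm (Pi.single l 1), eS_erase (Finset.mem_erase.2 ⟨hi.1.symm, hl⟩)]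
            rw [e2, e1]
        _ = ∑ i ∈ S, ∑ l ∈ S.erase i, om y k (v + Pi.single l 1) ((S.erase i).erase l) * y k (v + eS (S.erase i)) i := by
            apply Finset.sum_comm'
            intro a b
            simp only [Finset.mem_erase]
            tauto
        _ = ∑ i ∈ S, ∑ l ∈ S.erase i, om y k v ((S.erase i).erase l) * y k (v + eS (S.erase i)) i := by
            refine Finset.sum_congr rfl fun i _ => ?_
            rw [← Finset.sum_mul, ← Finset.sum_mul]
            congr 1
            have := ih v (S.erase i)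
            rw [Finset.sum_add_distrib] at this
            exact CharTwo.add_eq_zero.1 this
        _ = ∑ l ∈ S, ∑ i ∈ S.erase l, om y k v ((S.erase i).erase l) * y k (v + eS (S.erase i)) i := by
            apply Finset.sum_comm'
            intro a b
            simp only [Finset.mem_erase]
            tauto
        _ = _ := by
            refine Finset.sum_congr rfl fun l _ => Finset.sum_congr rfl fun i _ => ?_
            rw [Finset.erase_right_comm]
    rw [Finset.sum_add_distrib, step1]
    simp only [om]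
    rw [← Finset.sum_add_distrib]
    have step2 : ∀ l ∈ S, (∑ i ∈ S.erase l, om y k v ((S.erase l).erase i) * y k (v + eS (S.erase i)) i + 
        ∑ i ∈ S.erase l, om y k v ((S.erase l).erase i) * y k (v + eS ((S.erase l).erase i)) i) = 
        ∑ i ∈ S.erase l, om y k v ((S.erase l).erase i) * 
          (y k (v + eS (S.erase i)) i + y k (v + eS ((S.erase l).erase i)) i) := by
      intro l _
      rw [← Finset.sum_add_distrib]
      refine Finset.sum_congr rfl fun i _ => ?_
      ring
    rw [Finset.sum_congr rfl step2]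
    apply sum_sym_zero S (fun l i => om y k v ((S.erase l).erase i) * 
          (y k (v + eS (S.erase i)) i + y k (v + eS ((S.erase l).erase i)) i))
    intro l hl i hi hli
    have e1 : (S.erase l).erase i = (S.erase i).erase l := Finset.erase_right_comm
    have e2 : v + eS (S.erase i) = (v + eS ((S.erase l).erase i)) + Pi.single l 1 := by
      rw [e1, add_assoc, eS_erase (Finset.mem_erase.2 ⟨hli, hl⟩)]
    have e3 : v + eS (S.erase l) = (v + eS ((S.erase l).erase i)) + Pi.single i 1 := by
      rw [add_assoc, eS_erase (Finset.mem_erase.2 ⟨hli.symm, hi⟩)]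
    rw [← e1, e2, e3]
    congr 1
    have := hy k (v + eS ((S.erase l).erase i)) i l hli.symm
    set a := y k (v + eS ((S.erase l).erase i)) i
    set b := y k (v + eS ((S.erase l).erase i) + Pi.single i 1) l
    set c := y k (v + eS ((S.erase l).erase i)) l
    set d := y k (v + eS ((S.erase l).erase i) + Pi.single l 1) i
    have h2 : d + a + (b + c) = 0 := by rw [← this]; ring
    exact CharTwo.add_eq_zero.1 h2

/-- twisted coboundary cochains -/
def yc (σ : ℕ → (Fin m → ZMod L) → ZMod 2) (k : ℕ) (v : Fin m → ZMod L) (i : Fin m) : ZMod 2 :=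
  (if i.val = k ∧ v i = -1 then 1 else 0) + (σ k (v + Pi.single i 1) + σ k v)

lemma yc_closed (σ : ℕ → (Fin m → ZMod L) → ZMod 2) (k : ℕ) (v : Fin m → ZMod L) (i l : Fin m) (hil : i ≠ l) :
    yc σ k v i + yc σ k (v + Pi.single i 1) l + yc σ k v l + yc σ k (v + Pi.single l 1) i = 0 := by
  unfold yc
  have e1 : (v + Pi.single i 1 : Fin m → ZMod L) l = v l := by
    simp [Pi.single_eq_of_ne (Ne.symm hil)]
  have e2 : (v + Pi.single l 1 : Fin m → ZMod L) i = v i := by
    simp [Pi.single_eq_of_ne hil]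
  have e3 : v + Pi.single l 1 + Pi.single i 1 = v + Pi.single i 1 + Pi.single l 1 := by
    rw [add_assoc, add_assoc, add_comm (Pi.single l 1)]
  rw [e1, e2, e3]
  generalize (if i.val = k ∧ v i = -1 then (1:ZMod 2) else 0) = a
  generalize (if l.val = k ∧ v l = -1 then (1:ZMod 2) else 0) = b
  generalize σ k (v + Pi.single i 1) = c
  generalize σ k (v + Pi.single l 1) = d
  generalize σ k (v + Pi.single i 1 + Pi.single l 1) = e
  generalize σ k v = f
  have h2 : ∀ z : ZMod 2, z + z = 0 := CharTwo.add_self_eq_zero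
  have : a + (c + f) + (b + (e + c)) + (b + (d + f)) + (a + (e + d)) = 
      (a + a) + (b + b) + (c + c) + (d + d) + (e + e) + (f + f) := by ring
  rw [this]
  simp only [h2, add_zero]

variable [NeZero L]

/-- slice of the torus through `w` in the first `k` directions -/
def sl (k : ℕ) (w : Fin m → ZMod L) : Finset (Fin m → ZMod L) := 
  Finset.univ.filter (fun v => ∀ i : Fin m, k ≤ i.val → v i = w i)

/-- first `k` coordinates -/
def rg (k : ℕ) : Finset (Fin m) := Finset.univ.filter (fun i => i.val < k)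

lemma total_one (σ : ℕ → (Fin m → ZMod L) → ZMod 2) (k : ℕ) (hk : k ≤ m) : 
    ∀ w : Fin m → ZMod L, ∑ v ∈ sl k w, om (yc σ) k v (rg k) = 1 := by
  induction k with
  | zero =>
    intro w
    have : sl 0 w = {w} := by
      ext v
      simp only [sl, Finset.mem_filter, Finset.mem_univ, true_and, Finset.mem_singleton, zero_le, 
        forall_true_left]
      exact ⟨fun h => funext h, fun h => by rw [h]; intro; rfl⟩
    rw [this, Finset.sum_singleton, om]
  | succ k ih =>
    intro w
    have hk' : k < m := hk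
    have hcl := om_closed (yc σ) (yc_closed σ) k
    set R : Finset (Fin m) := rg (k+1) with hR
    have hsplit : ∑ v ∈ sl (k+1) w, om (yc σ) (k+1) v R = 
        ∑ v ∈ sl (k+1) w, ∑ i ∈ R, om (yc σ) k v (R.erase i) * (if i.val = k ∧ v i = -1 then 1 else 0) +
        (∑ v ∈ sl (k+1) w, ∑ i ∈ R, om (yc σ) k v (R.erase i) * σ k (v + eS R) + 
         ∑ v ∈ sl (k+1) w, ∑ i ∈ R, om (yc σ) k v (R.erase i) * σ k (v + eS (R.erase i))) := by
      rw [← Finset.sum_add_distrib, ← Finset.sum_add_distrib]
      refine Finset.sum_congr rfl fun v _ => ?_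
      rw [om, ← Finset.sum_add_distrib, ← Finset.sum_add_distrib]
      refine Finset.sum_congr rfl fun i hi => ?_
      have e1 : (v + eS (R.erase i) : Fin m → ZMod L) i = v i := by simp [eS]
      have e2 : v + eS (R.erase i) + Pi.single i 1 = v + eS R := by
        rw [add_assoc, eS_erase hi]
      rw [yc, e1, e2]
      ring
    have hshift : ∑ v ∈ sl (k+1) w, ∑ i ∈ R, om (yc σ) k v (R.erase i) * σ k (v + eS (R.erase i)) = 
        ∑ v ∈ sl (k+1) w, ∑ i ∈ R, om (yc σ) k (v + Pi.single i 1) (R.erase i) * σ k (v + eS R) := by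
      rw [Finset.sum_comm, Finset.sum_comm (s := sl (k+1) w)]
      refine Finset.sum_congr rfl fun i hi => ?_
      have hi' : i.val < k + 1 := by simpa [hR, rg] using hi
      symm
      refine Finset.sum_nbij' (fun v => v + Pi.single i 1) (fun v => v - Pi.single i 1) ?_ ?_ ?_ ?_ ?_
      · intro v hv
        simp only [sl, Finset.mem_filter, Finset.mem_univ, true_and] at hv ⊢
        intro l hl
        have hne : l ≠ i := by rintro rfl; omega
        simp [hv l hl, Pi.single_eq_of_ne hne]
      · intro v hv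
        simp only [sl, Finset.mem_filter, Finset.mem_univ, true_and] at hv ⊢
        intro l hl
        have hne : l ≠ i := by rintro rfl; omega
        simp [hv l hl, Pi.single_eq_of_ne hne]
      · intro v _; simp
      · intro v _; simp
      · intro v _
        rw [add_assoc, add_comm (Pi.single i 1), eS_erase hi]
    have hzero : ∑ v ∈ sl (k+1) w, ∑ i ∈ R, om (yc σ) k v (R.erase i) * σ k (v + eS R) + 
         ∑ v ∈ sl (k+1) w, ∑ i ∈ R, om (yc σ) k v (R.erase i) * σ k (v + eS (R.erase i)) = 0 := by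
      rw [hshift, ← Finset.sum_add_distrib]
      refine Finset.sum_eq_zero fun v _ => ?_
      rw [← Finset.sum_mul, ← Finset.sum_mul, ← add_mul, ← Finset.sum_add_distrib]
      have := hcl v R
      have e : ∑ i ∈ R, (om (yc σ) k v (R.erase i) + om (yc σ) k (v + Pi.single i 1) (R.erase i)) = 0 := by
        rw [← this]
        refine Finset.sum_congr rfl fun i _ => add_comm _ _
      rw [e, zero_mul]
    rw [hsplit, hzero, add_zero]
    -- main term
    have hmain : ∀ v ∈ sl (k+1) w, ∑ i ∈ R, om (yc σ) k v (R.erase i) * (if i.val = k ∧ v i = -1 then (1:ZMod 2) else 0) =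
        if v ⟨k, hk'⟩ = -1 then om (yc σ) k v (rg k) else 0 := by
      intro v _
      rw [Finset.sum_eq_single (⟨k, hk'⟩ : Fin m)]
      · have : R.erase ⟨k, hk'⟩ = rg k := by
          ext l
          simp only [hR, rg, Finset.mem_erase, Finset.mem_filter, Finset.mem_univ, true_and, ne_eq, Fin.ext_iff]
          omega
        rw [this]
        simp
      · intro i _ hi
        have : ¬ (i.val = k ∧ v i = -1) := by
          rintro ⟨h, _⟩
          exact hi (Fin.ext h)
        rw [if_neg this, mul_zero]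
      · intro h
        exfalso
        apply h
        simp [hR, rg]
    rw [Finset.sum_congr rfl hmain, ← Finset.sum_filter]
    have hset : (sl (k+1) w).filter (fun v => v ⟨k, hk'⟩ = -1) = sl k (Function.update w ⟨k, hk'⟩ (-1)) := by
      ext v
      simp only [sl, Finset.mem_filter, Finset.mem_univ, true_and]
      constructor
      · rintro ⟨h1, h2⟩ i hi
        by_cases hik : i = ⟨k, hk'⟩
        · subst hik; simp [h2]
        · rw [Function.update_of_ne hik]
          apply h1
          have : i.val ≠ k := fun h => hik (Fin.ext h)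
          omega
      · intro h
        refine ⟨fun i hi => ?_, ?_⟩
        · have hik : i ≠ ⟨k, hk'⟩ := by
            rintro rfl
            simp at hi
          have := h i (by omega)
          rwa [Function.update_of_ne hik] at this
        · have := h ⟨k, hk'⟩ le_rfl
          simpa using this
    rw [hset]
    exact ih (by omega) _

omit [NeZero L] in
/-- a cube on which one of the cochains vanishes contributes nothing -/
lemma om_zero (y : ℕ → (Fin m → ZMod L) → Fin m → ZMod 2) (v : Fin m → ZMod L) (j : ℕ) 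
    (h : ∀ (S : Finset (Fin m)) (i : Fin m), i ∉ S → y j (v + eS S) i = 0) (k : ℕ) (hk : j < k) :
    ∀ S, om y k v S = 0 := by
  induction k with
  | zero => omega
  | succ k ih =>
    intro S
    rw [om]
    refine Finset.sum_eq_zero fun i _ => ?_
    rcases Nat.lt_succ_iff_lt_or_eq.1 hk with h1 | h1
    · rw [ih h1, zero_mul]
    · subst h1
      rw [h _ _ (Finset.notMem_erase _ _), mul_zero]

/-- The combinatorial core: there is no labelling of the discrete torus with values in `ZMod 2 ^ m` that is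
twisted periodic and, on every unit cube, has a constant coordinate. -/
theorem no_labelling (σ : Fin m → (Fin m → ZMod L) → ZMod 2)
    (h : ∀ v : Fin m → ZMod L, ∃ j : Fin m, ∀ S : Finset (Fin m), 
      σ j (v + eS S) = σ j v + (if j ∈ S ∧ v j = -1 then 1 else 0)) : False := by
  set τ : ℕ → (Fin m → ZMod L) → ZMod 2 := fun k v => if hk : k < m then σ ⟨k, hk⟩ v else 0 with hτ
  have h1 := total_one τ m le_rfl 0
  have h2 : ∀ v : Fin m → ZMod L, om (yc τ) m v (rg m) = 0 := by
    intro v
    obtain ⟨j, hj⟩ := h v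
    apply om_zero (yc τ) v j.val _ m j.2
    intro S i hi
    have hτj : ∀ v, τ j.val v = σ j v := by
      intro v; simp [hτ, j.2]
    rw [yc, hτj, hτj]
    have e1 : v + eS S + Pi.single i 1 = v + eS (insert i S) := by
      rw [eS_insert hi, add_assoc]
    have e2 : (v + eS S : Fin m → ZMod L) i = v i := by simp [eS, hi]
    rw [e1, hj, hj, e2]
    have h2 : ∀ z : ZMod 2, z + z = 0 := CharTwo.add_self_eq_zero
    by_cases hij : i = j
    · subst hij
      simp only [true_and, Finset.mem_insert, true_or, hi, false_and, if_false, add_zero]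
      generalize (if v i = -1 then (1:ZMod 2) else 0) = a
      generalize σ i v = b
      have : a + (b + a + b) = (a + a) + (b + b) := by ring
      rw [this, h2, h2, add_zero]
    · have h3 : ¬ (i.val = j.val ∧ v i = -1) := by
        rintro ⟨h, _⟩; exact hij (Fin.ext h)
      have h4 : (j ∈ insert i S ∧ v j = -1) ↔ (j ∈ S ∧ v j = -1) := by
        rw [Finset.mem_insert]
        constructor
        · rintro ⟨h | h, h'⟩
          · exact absurd h.symm hij
          · exact ⟨h, h'⟩
        · rintro ⟨h, h'⟩; exact ⟨Or.inr h, h'⟩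
      rw [if_neg h3, zero_add]
      simp only [h4]
      exact h2 _
  rw [Finset.sum_eq_zero (fun v _ => h2 v)] at h1
  exact zero_ne_one h1

end discrete

section approx

variable {G : Type} [Group G] [TopologicalSpace G] [IsTopologicalGroup G] [CompactSpace G] [T2Space G]
variable {X : Type} [TopologicalSpace X] [CompactSpace X] [T2Space X] [MulAction G X]
  [ContinuousSMul G X]

lemma exists_functions (d : ℕ) (h : RokhlinDimLE G X d) (χ : Fin (d+1) → C(G, ℂ))
    (hstar : ∀ j, star (χ j) = χ j) (hsq : ∀ j, χ j * χ j = 1) {ι : Type} [Fintype ι] (g : ι → G)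
    (s : ι → Fin (d+1) → Prop) [∀ i j, Decidable (s i j)]
    (hχ : ∀ i j, actC (g i) (χ j) = if s i j then - χ j else χ j) (δ : ℝ) (hδ : 0 < δ) :
    ∃ U B : Fin (d+1) → C(X, ℂ), (∀ j, ‖B j * B j - U j * U j‖ < δ) ∧ ‖∑ j, B j - 1‖ < δ ∧
      (∀ j, ‖star (U j) - U j‖ < δ) ∧
      (∀ i j, ‖actC (g i) (U j) - (if s i j then - U j else U j)‖ < δ) := by
  obtain ⟨φ, hφ, hsum⟩ := h
  choose u hu using fun j => mkInf_surjective (φ j (χ j))
  choose b hb using fun j => mkInf_surjective (φ j 1)
  have c1 : ∀ j, b j * b j - u j * u j ∈ c0 X := by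
    intro j
    rw [← mkInf_eq, map_mul, map_mul, hu, hb]
    exact ((hφ j).sign (χ j) (hstar j) (hsq j)).1.symm
  have c2 : ∑ j, b j - 1 ∈ c0 X := by
    rw [← mkInf_eq, map_sum, map_one, ← hsum]
    exact Finset.sum_congr rfl fun j _ => hb j
  have c3 : ∀ j, star (u j) - u j ∈ c0 X := by
    intro j
    rw [← mkInf_eq, ← starInf_mk, hu]
    exact ((hφ j).sign (χ j) (hstar j) (hsq j)).2
  have c4 : ∀ i j, actSeq (g i) (u j) - (if s i j then - u j else u j) ∈ c0 X := by
    intro i j
    rw [← mkInf_eq, ← actInf_mk, hu, ← (hφ j).equivariant, hχ]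
    split_ifs
    · rw [map_neg, map_neg, hu]
    · rw [hu]
  have e1 : ∀ᶠ n in atTop, ∀ j, ‖(b j * b j - u j * u j) n‖ < δ := by
    rw [eventually_all]
    intro j
    exact (mem_c0.1 (c1 j)).eventually_lt_const hδ
  have e2 : ∀ᶠ n in atTop, ‖(∑ j, b j - 1) n‖ < δ := (mem_c0.1 c2).eventually_lt_const hδ
  have e3 : ∀ᶠ n in atTop, ∀ j, ‖(star (u j) - u j) n‖ < δ := by
    rw [eventually_all]
    intro j
    exact (mem_c0.1 (c3 j)).eventually_lt_const hδ
  have e4 : ∀ᶠ n in atTop, ∀ i j, ‖(actSeq (g i) (u j) - (if s i j then - u j else u j)) n‖ < δ := by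
    rw [eventually_all]
    intro i
    rw [eventually_all]
    intro j
    exact (mem_c0.1 (c4 i j)).eventually_lt_const hδ
  obtain ⟨n, h1, h2, h3, h4⟩ := (e1.and (e2.and (e3.and e4))).exists
  refine ⟨fun j => u j n, fun j => b j n, h1, ?_, h3, ?_⟩
  · have : (∑ j, b j - 1) n = ∑ j, b j n - 1 := by
      rw [BoundedContinuousFunction.sub_apply, BoundedContinuousFunction.sum_apply]
      rfl
    rw [← this]
    exact h2
  · intro i j
    have := h4 i j
    rw [BoundedContinuousFunction.sub_apply] at this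
    convert this using 2
    split_ifs <;> rfl

/-- real functions without common small values -/
lemma exists_real (d : ℕ) (h : RokhlinDimLE G X d) (χ : Fin (d+1) → C(G, ℂ))
    (hstar : ∀ j, star (χ j) = χ j) (hsq : ∀ j, χ j * χ j = 1) {ι : Type} [Fintype ι] (g : ι → G)
    (s : ι → Fin (d+1) → Prop) [∀ i j, Decidable (s i j)]
    (hχ : ∀ i j, actC (g i) (χ j) = if s i j then - χ j else χ j) :
    ∃ (f : Fin (d+1) → C(X, ℝ)) (η : ℝ), 0 < η ∧ (∀ x, ∃ j, η ≤ |f j x|) ∧
      (∀ i j x, |f j ((g i)⁻¹ • x) - (if s i j then - f j x else f j x)| < η/4) := by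
  set m : ℝ := (d:ℝ) + 1 with hm
  have hm1 : 1 ≤ m := by rw [hm]; have : (0:ℝ) ≤ d := by positivity
                         linarith
  have hm0 : 0 < m := by linarith
  set δ : ℝ := 1/(64 * m^2) with hδ
  have hδ0 : 0 < δ := by positivity
  obtain ⟨U, B, h1, h2, h3, h4⟩ := exists_functions d h χ hstar hsq g s hχ δ hδ0
  refine ⟨fun j => ⟨fun x => (U j x).re, by fun_prop⟩, 1/(4*m), by positivity, ?_, ?_⟩
  · intro x
    by_contra hcon
    push Not at hcon
    have hU : ∀ j, ‖U j x‖ ≤ 1/(4*m) + δ := by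
      intro j
      have hre : |(U j x).re| < 1/(4*m) := hcon j
      have him : |(U j x).im| ≤ δ := by
        have h5 := (ContinuousMap.norm_lt_iff _ hδ0).1 (h3 j) x
        have h6 : (star (U j) - U j) x = (starRingEnd ℂ (U j x)) - U j x := rfl
        rw [h6] at h5
        have h7 : |((starRingEnd ℂ (U j x)) - U j x).im| ≤ ‖(starRingEnd ℂ (U j x)) - U j x‖ :=
          Complex.abs_im_le_norm _
        have h8 : ((starRingEnd ℂ (U j x)) - U j x).im = - (2 * (U j x).im) := by
          rw [Complex.sub_im, Complex.conj_im]; ring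
        rw [h8, abs_neg, abs_mul] at h7
        norm_num at h7
        have := abs_nonneg (U j x).im
        linarith
      calc ‖U j x‖ ≤ |(U j x).re| + |(U j x).im| := Complex.norm_le_abs_re_add_abs_im _
        _ ≤ _ := by linarith
    have hB : ∀ j, ‖B j x‖ ≤ 1/(2*m) := by
      intro j
      have h5 := (ContinuousMap.norm_lt_iff _ hδ0).1 (h1 j) x
      have h6 : (B j * B j - U j * U j) x = B j x * B j x - U j x * U j x := rfl
      rw [h6] at h5
      have h7 : ‖B j x‖^2 ≤ ‖U j x‖^2 + δ := by
        have e : ‖U j x * U j x‖ = ‖U j x‖^2 := by rw [norm_mul, sq]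
        calc ‖B j x‖^2 = ‖B j x * B j x‖ := by rw [norm_mul, sq]
          _ = ‖(B j x * B j x - U j x * U j x) + U j x * U j x‖ := by rw [sub_add_cancel]
          _ ≤ ‖B j x * B j x - U j x * U j x‖ + ‖U j x * U j x‖ := norm_add_le _ _
          _ ≤ _ := by rw [e]; linarith
      have h8 : ‖U j x‖^2 ≤ (1/(4*m) + δ)^2 := pow_le_pow_left₀ (norm_nonneg _) (hU j) 2
      have h9 : (1/(4*m) + δ)^2 + δ ≤ (1/(2*m))^2 := by
        have hi : δ ≤ 1/(64*m) := by
          rw [hδ]
          apply one_div_le_one_div_of_le (by positivity)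
          nlinarith
        have h10 : (1/(4*m) + δ)^2 ≤ (17/(64*m))^2 := by
          apply pow_le_pow_left₀ (by positivity)
          calc 1/(4*m) + δ ≤ 1/(4*m) + 1/(64*m) := by linarith
            _ = 17/(64*m) := by field_simp; norm_num
        have h11 : (17/(64*m))^2 + δ ≤ (1/(2*m))^2 := by
          rw [hδ]
          rw [div_pow, div_pow, div_add_div _ _ (by positivity) (by positivity), div_le_div_iff₀ (by positivity) (by positivity)]
          have : 0 < m^4 := by positivity
          nlinarith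
        linarith
      exact le_of_sq_le_sq (by linarith) (by positivity)
    have h5 := (ContinuousMap.norm_lt_iff _ hδ0).1 h2 x
    have h6 : (∑ j, B j - 1) x = ∑ j, B j x - 1 := by
      rw [ContinuousMap.sub_apply, ContinuousMap.sum_apply]
      rfl
    rw [h6] at h5
    have h7 : ‖∑ j, B j x‖ ≤ 1/2 := by
      calc ‖∑ j, B j x‖ ≤ ∑ j, ‖B j x‖ := norm_sum_le _ _
        _ ≤ ∑ j : Fin (d+1), 1/(2*m) := Finset.sum_le_sum fun j _ => hB j
        _ = 1/2 := by
          rw [Finset.sum_const, Finset.card_univ, Fintype.card_fin, nsmul_eq_mul]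
          push_cast
          rw [← hm]
          field_simp
    have h8 : (1:ℝ) ≤ ‖∑ j, B j x‖ + ‖∑ j, B j x - 1‖ := by
      calc (1:ℝ) = ‖(1:ℂ)‖ := by simp
        _ = ‖∑ j, B j x - (∑ j, B j x - 1)‖ := by ring_nf
        _ ≤ _ := norm_sub_le _ _
    have h9 : δ ≤ 1/64 := by
      rw [hδ]
      apply one_div_le_one_div_of_le (by norm_num)
      nlinarith
    linarith
  · intro i j x
    have h5 := (ContinuousMap.norm_lt_iff _ hδ0).1 (h4 i j) x
    have hδle : δ ≤ 1/(4*m)/4 := by
      have : 1/(4*m)/4 = 1/(16*m) := by rw [div_div]; ring_nf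
      rw [this, hδ]
      apply one_div_le_one_div_of_le (by positivity)
      nlinarith
    refine lt_of_le_of_lt ?_ (h5.trans_le hδle)
    have h6 : (actC (g i) (U j) - (if s i j then - U j else U j)) x =
        U j ((g i)⁻¹ • x) - (if s i j then - U j x else U j x) := by
      rw [ContinuousMap.sub_apply]
      split_ifs <;> rfl
    rw [h6]
    have h7 : (U j ((g i)⁻¹ • x)).re - (if s i j then - (U j x).re else (U j x).re) =
        (U j ((g i)⁻¹ • x) - (if s i j then - U j x else U j x)).re := by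
      rw [Complex.sub_re]
      split_ifs <;> simp
    change |(U j ((g i)⁻¹ • x)).re - (if s i j then - (U j x).re else (U j x).re)| ≤ _
    rw [h7]
    exact Complex.abs_re_le_norm _

end approx

section final

/-- indicator vector -/
def ind {m : ℕ} (I : Finset (Fin m)) : Fin m → ℝ := fun i => if i ∈ I then 1 else 0

/-- point of the torus with prescribed coordinates at the places `κ j` -/
noncomputable def xp {m : ℕ} (κ : ℕ → ℕ) (t : Fin m → ℝ) : ℕ → Circle :=
  fun k => Circle.exp (Real.pi * ∑ j : Fin m, if κ j = k then t j else 0)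

lemma xp_add {m : ℕ} (κ : ℕ → ℕ) (s t : Fin m → ℝ) : xp κ (s + t) = xp κ s * xp κ t := by
  funext k
  rw [Pi.mul_apply, xp, xp, xp, ← Circle.exp_add, ← mul_add, ← Finset.sum_add_distrib]
  congr 2
  refine Finset.sum_congr rfl fun j _ => ?_
  split_ifs <;> simp

lemma continuous_xp {m : ℕ} (κ : ℕ → ℕ) : Continuous (xp (m := m) κ) := by
  refine continuous_pi fun k => ?_
  unfold xp
  refine Circle.exp.continuous.comp (continuous_const.mul ?_)
  refine continuous_finset_sum _ fun j _ => ?_
  by_cases h : κ j = k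
  · simp only [h, if_true]; exact continuous_apply j
  · simp only [h, if_false]; exact continuous_const

lemma xp_at {m : ℕ} (κ : ℕ → ℕ) (hκ : Function.Injective κ) (t : Fin m → ℝ) (i : Fin m) :
    xp κ t (κ i) = Circle.exp (Real.pi * t i) := by
  rw [xp, Finset.sum_eq_single i]
  · simp
  · intro j _ hj
    rw [if_neg]
    intro h
    exact hj (Fin.ext (hκ h))
  · intro h; exact absurd (Finset.mem_univ _) h

lemma circle_exp_pi_pow {r : ℕ} (hr : Even r) : (Circle.exp Real.pi)^r = 1 := by
  obtain ⟨q, rfl⟩ := hr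
  have : (Circle.exp Real.pi)^(q+q) = (Circle.exp (2 * Real.pi))^q := by
    rw [pow_add, ← mul_pow, ← Circle.exp_add]
    ring_nf
  rw [this, Circle.exp_two_pi, one_pow]

lemma xp_ind_mem {m : ℕ} (n : ℕ → ℕ) (κ : ℕ → ℕ) (hκ : Function.Injective κ) (he : ∀ j, Even (n (κ j)))
    (I : Finset (Fin m)) : xp κ (ind I) ∈ ProdMu n := by
  intro k
  by_cases h : ∃ i : Fin m, κ i = k
  · obtain ⟨i, rfl⟩ := h
    rw [xp_at κ hκ, ind]
    split_ifs
    · rw [mul_one]
      exact circle_exp_pi_pow (he i)
    · simp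
  · push Not at h
    have : ∑ j : Fin m, (if κ j = k then ind I j else 0) = 0 := 
      Finset.sum_eq_zero fun j _ => if_neg (h j)
    rw [xp, this]
    simp

/-- a half-plane sign -/
noncomputable def sg (z : ℂ) : ℂ := if 0 < z.im ∨ (z.im = 0 ∧ 0 < z.re) then 1 else -1

lemma sg_neg (z : ℂ) (hz : z ≠ 0) : sg (-z) = - sg z := by
  unfold sg
  rw [Complex.neg_im, Complex.neg_re]
  rcases lt_trichotomy z.im 0 with h | h | h
  · have h1 : ¬ (0 < z.im ∨ (z.im = 0 ∧ 0 < z.re)) := by
      rintro (h' | ⟨h', _⟩) <;> linarith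
    rw [if_pos (Or.inl (by linarith)), if_neg h1]; simp
  · have hre : z.re ≠ 0 := by
      intro h'
      exact hz (Complex.ext (by simpa using h') (by simpa using h))
    rcases lt_or_gt_of_ne hre with h2 | h2
    · have h1 : ¬ (0 < z.im ∨ (z.im = 0 ∧ 0 < z.re)) := by
        rintro (h' | ⟨_, h'⟩) <;> linarith
      rw [if_pos (Or.inr ⟨by linarith, by linarith⟩), if_neg h1]; simp
    · have h1 : ¬ (0 < -z.im ∨ (-z.im = 0 ∧ 0 < -z.re)) := by
        rintro (h' | ⟨_, h'⟩) <;> linarith
      rw [if_neg h1, if_pos (Or.inr ⟨h, h2⟩)]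
  · have h1 : ¬ (0 < -z.im ∨ (-z.im = 0 ∧ 0 < -z.re)) := by
      rintro (h' | ⟨h', _⟩) <;> linarith
    rw [if_neg h1, if_pos (Or.inl h)]

lemma sg_mul_self (z : ℂ) : sg z * sg z = 1 := by
  unfold sg; split_ifs <;> norm_num

lemma star_sg (z : ℂ) : star (sg z) = sg z := by
  unfold sg; split_ifs <;> simp

/-- the sign function of the `k`-th coordinate on the group -/
noncomputable def chi (n : ℕ → ℕ) (hn : ∀ k, 0 < n k) (k : ℕ) : C(ProdMu n, ℂ) where
  toFun g := sg ((g : ℕ → Circle) k)
  continuous_toFun := by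
    let R : Set Circle := {z | z ^ (n k) = 1}
    have hfin : R.Finite := by
      have h1 : ((Polynomial.nthRootsFinset (n k) (1:ℂ)) : Set ℂ).Finite := Finset.finite_toSet _
      refine Set.Finite.of_finite_image (f := fun z : Circle => (z : ℂ)) (h1.subset ?_) 
        (Circle.coe_injective.injOn)
      rintro _ ⟨z, hz, rfl⟩
      rw [Finset.mem_coe, Polynomial.mem_nthRootsFinset (hn k)]
      have : ((z ^ (n k) : Circle) : ℂ) = 1 := by rw [hz]; rfl
      simpa using this
    have : Finite R := hfin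
    let p : ProdMu n → R := fun g => ⟨(g : ℕ → Circle) k, g.2 k⟩
    have hp : Continuous p := by
      apply Continuous.subtype_mk
      exact (continuous_apply k).comp continuous_subtype_val
    have hs : Continuous (fun z : R => sg (z : Circle)) := continuous_of_discreteTopology
    exact hs.comp hp

lemma chi_act {m : ℕ} (n : ℕ → ℕ) (hn : ∀ k, 0 < n k) (κ : ℕ → ℕ) (hκ : Function.Injective κ) 
    (he : ∀ j, Even (n (κ j))) (I : Finset (Fin m)) (j : Fin m) :
    actC (G := ProdMu n) (⟨xp κ (ind I), xp_ind_mem n κ hκ he I⟩ : ProdMu n)⁻¹ (chi n hn (κ j)) = 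
      if j ∈ I then - chi n hn (κ j) else chi n hn (κ j) := by
  ext g
  have h1 : (actC (G := ProdMu n) (⟨xp κ (ind I), xp_ind_mem n κ hκ he I⟩ : ProdMu n)⁻¹ (chi n hn (κ j))) g = 
     sg ((xp κ (ind I) (κ j) : ℂ) * ((g : ℕ → Circle) (κ j))) := by
    change sg _ = _
    rw [inv_inv]
    rfl
  rw [h1, xp_at κ hκ, ind]
  split_ifs with h
  · rw [mul_one, Circle.coe_exp, Complex.exp_pi_mul_I, neg_one_mul, sg_neg _ (Circle.coe_ne_zero _)]
    rfl
  · simp
    rfl

/-- Let `n_k ≥ 1` be integers, infinitely many of them even. The rotation action of the compact group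
`∏_k ℤ/n_k` on the compact space `∏_k S¹` is free, but the induced action on `C(∏_k S¹)` has infinite
Rokhlin dimension. -/
theorem result (n : ℕ → ℕ) (hn : ∀ k, 0 < n k) (heven : ∃ᶠ k in atTop, Even (n k)) :
    (∀ (g : ProdMu n) (x : ℕ → Circle), g • x = x → g = 1) ∧
      ∀ d : ℕ, ¬ RokhlinDimLE (ProdMu n) (ℕ → Circle) d := by
  constructor
  · intro g x h
    apply Subtype.ext
    have h2 : (g : ℕ → Circle) * x = x := h
    simpa using h2
  intro d hd
  obtain ⟨κ, hκm, he⟩ := extraction_of_frequently_atTop heven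
  have hκ := hκm.injective
  obtain ⟨f, η, hη, hbig, hper⟩ := exists_real (ι := Finset (Fin (d+1))) d hd
    (fun j => chi n hn (κ j)) (fun j => by ext g; exact star_sg _) (fun j => by ext g; exact sg_mul_self _)
    (fun I => (⟨xp κ (ind I), xp_ind_mem n κ hκ he I⟩ : ProdMu n)⁻¹) (fun I j => j ∈ I)
    (fun I j => chi_act n hn κ hκ he I j)
  -- functions on the parameter space
  let F : Fin (d+1) → (Fin (d+1) → ℝ) → ℝ := fun j t => f j (xp κ t)
  have hFc : ∀ j, Continuous (F j) := fun j => (f j).continuous.comp (continuous_xp κ)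
  have hFbig : ∀ t, ∃ j, η ≤ |F j t| := fun t => hbig _
  have hFper : ∀ (I : Finset (Fin (d+1))) (j : Fin (d+1)) (t : Fin (d+1) → ℝ),
      |F j (ind I + t) - (if j ∈ I then - F j t else F j t)| < η/4 := by
    intro I j t
    have := hper I j (xp κ t)
    rw [inv_inv] at this
    have h2 : (⟨xp κ (ind I), xp_ind_mem n κ hκ he I⟩ : ProdMu n) • (xp κ t) = xp κ (ind I + t) := by
      rw [xp_add]; rfl
    rw [h2] at this
    exact this
  -- uniform continuity on the unit cube
  have huc : ∃ ρ > 0, ∀ j, ∀ s ∈ Set.univ.pi (fun _ : Fin (d+1) => Set.Icc (0:ℝ) 1), 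
      ∀ t ∈ Set.univ.pi (fun _ : Fin (d+1) => Set.Icc (0:ℝ) 1), dist s t < ρ → |F j s - F j t| < η/4 := by
    have hcpt : IsCompact (Set.univ.pi (fun _ : Fin (d+1) => Set.Icc (0:ℝ) 1)) := 
      isCompact_univ_pi fun _ => isCompact_Icc
    have h1 : ∀ j, ∃ ρ > 0, ∀ s ∈ Set.univ.pi (fun _ : Fin (d+1) => Set.Icc (0:ℝ) 1), 
      ∀ t ∈ Set.univ.pi (fun _ : Fin (d+1) => Set.Icc (0:ℝ) 1), dist s t < ρ → |F j s - F j t| < η/4 := by
      intro j
      have := Metric.uniformContinuousOn_iff.1 
        (hcpt.uniformContinuousOn_of_continuous (hFc j).continuousOn) (η/4) (by positivity)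
      obtain ⟨ρ, hρ, H⟩ := this
      exact ⟨ρ, hρ, fun s hs t ht hst => by simpa [Real.dist_eq] using H s hs t ht hst⟩
    choose ρ hρ H using h1
    refine ⟨Finset.univ.inf' Finset.univ_nonempty ρ, ?_, ?_⟩
    · rw [gt_iff_lt, Finset.lt_inf'_iff]
      intro j _; exact hρ j
    · intro j s hs t ht hst
      exact H j s hs t ht (hst.trans_le (Finset.inf'_le _ (Finset.mem_univ j)))
  obtain ⟨ρ, hρ, huc⟩ := huc
  obtain ⟨N, hN⟩ := exists_nat_one_div_lt hρ
  -- labelling of the discrete torus
  let pt : (Fin (d+1) → ZMod (N+1)) → (Fin (d+1) → ℝ) := fun v i => ((v i).val : ℝ) / (N+1)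
  let σ : Fin (d+1) → (Fin (d+1) → ZMod (N+1)) → ZMod 2 := fun j v => if F j (pt v) < 0 then 1 else 0
  apply no_labelling σ
  intro v
  obtain ⟨j, hj⟩ := hFbig (pt v)
  refine ⟨j, ?_⟩
  intro S
  have hNpos : (0:ℝ) < (N:ℝ) + 1 := by positivity
  -- the wrapped coordinates
  set I : Finset (Fin (d+1)) := S.filter (fun i => v i = -1) with hI
  set u : Fin (d+1) → ZMod (N+1) := v + eS S with hu
  set t' : Fin (d+1) → ℝ := ind I + pt u with ht'
  have hval : ∀ i, t' i = (((v i).val : ℝ) + (if i ∈ S then 1 else 0)) / (N+1) := by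
    intro i
    simp only [ht', Pi.add_apply, ind, pt, hI, Finset.mem_filter, hu, eS]
    by_cases hiS : i ∈ S
    · by_cases hiv : v i = -1
      · simp only [hiS, hiv, true_and, if_true, neg_add_cancel, ZMod.val_zero, ZMod.val_neg_one]
        push_cast
        field_simp
        ring
      · simp only [hiS, hiv, true_and, if_true, if_false]
        have h1 : (v i + 1).val = (v i).val + 1 := by
          have hlt : (v i).val < N + 1 := ZMod.val_lt _
          have hne : (v i).val ≠ N := by
            intro h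
            apply hiv
            apply ZMod.val_injective (N+1)
            rw [h, ZMod.val_neg_one]
          rcases Nat.eq_zero_or_pos N with h0 | h0
          · omega
          · haveI : Fact (1 < N+1) := ⟨by omega⟩
            have h3 : (v i + 1).val = (v i).val + (1 : ZMod (N+1)).val := by
              apply ZMod.val_add_of_lt
              rw [ZMod.val_one]
              omega
            rw [h3, ZMod.val_one]
        rw [h1]
        push_cast
        ring
    · simp [hiS]
  have hmem1 : pt v ∈ Set.univ.pi (fun _ : Fin (d+1) => Set.Icc (0:ℝ) 1) := by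
    intro i _
    refine ⟨by positivity, ?_⟩
    rw [div_le_one hNpos]
    have : (v i).val < N + 1 := ZMod.val_lt _
    exact_mod_cast this.le
  have hmem2 : t' ∈ Set.univ.pi (fun _ : Fin (d+1) => Set.Icc (0:ℝ) 1) := by
    intro i _
    rw [hval]
    have h1 : ((v i).val : ℝ) + 1 ≤ N + 1 := by exact_mod_cast ZMod.val_lt (v i)
    constructor
    · split_ifs <;> positivity
    · rw [div_le_one hNpos]
      split_ifs <;> linarith
  have hdist : dist t' (pt v) < ρ := by
    rw [dist_pi_lt_iff hρ]
    intro i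
    rw [hval, Real.dist_eq]
    have e : (((v i).val : ℝ) + (if i ∈ S then 1 else 0)) / (N+1) - pt v i = (if i ∈ S then 1 else 0) / ((N:ℝ)+1) := by
      simp only [pt]; ring
    rw [e]
    split_ifs
    · rw [abs_of_pos (by positivity)]; exact hN
    · simp [hρ]
  have h1 := huc j t' hmem2 (pt v) hmem1 hdist
  have h2 := hFper I j (pt u)
  have hIj : (j ∈ I) ↔ (j ∈ S ∧ v j = -1) := by rw [hI, Finset.mem_filter]
  change σ j u = σ j v + _
  simp only [← hIj]
  simp only [σ]
  rw [← ht'] at h2
  rw [abs_lt] at h1 h2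
  rcases le_or_gt 0 (F j (pt v)) with hpos | hneg
  · rw [abs_of_nonneg hpos] at hj
    rw [if_neg (show ¬ F j (pt v) < 0 by linarith)]
    split_ifs at h2 ⊢ with ha hb hb
    · simp
    · exfalso; linarith
    · exfalso; linarith
    · simp
  · rw [abs_of_neg hneg] at hj
    rw [if_pos hneg]
    split_ifs at h2 ⊢ with ha hb hb
    · exfalso; linarith
    · simp
    · exact (CharTwo.add_self_eq_zero _).symm
    · exfalso; linarith

end final

end Pool.Agent.Results.MP_cd8fef_an.ProductRotation
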